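import Mathlib

/-!
# Stationary sets in `ω₁`-like well-orders

Elementary combinatorics of stationary subsets of a linearly ordered, well-founded, uncountable
type all of whose proper initial segments are countable.
-/

namespace Pool.Agent.H90.RS

open Set

variable {W : Type*} [LinearOrder W]

/-- `A` is stationary: every function `h` has a closure point in `A` (with a non-empty set of
predecessors). -/
def Stat (A : Set W) : Prop :=
  ∀ h : W → W, ∃ δ ∈ A, (∃ a, a < δ) ∧ ∀ a < δ, h a < δ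

/-- Data of an `ω₁`-like order. -/
structure OmegaLike (W : Type*) [LinearOrder W] : Prop where
  wf : WellFounded ((· < ·) : W → W → Prop)
  ctbl : ∀ a : W, (Iio a).Countable
  unctbl : ¬ (univ : Set W).Countable

theorem OmegaLike.bdd (hW : OmegaLike W) {C : Set W} (hC : C.Countable) :
    ∃ b, ∀ a ∈ C, a < b := by
  by_contra hcon
  push Not at hcon
  apply hW.unctbl
  have h1 : (⋃ a ∈ C, Iic a).Countable := by
    refine hC.biUnion ?_
    intro a _
    have : Iic a = insert a (Iio a) := by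
      ext b; simp [le_iff_eq_or_lt]
    rw [this]
    exact (hW.ctbl a).insert a
  refine h1.mono ?_
  intro b _
  obtain ⟨a, ha, hb⟩ := hcon b
  exact mem_biUnion ha hb

theorem OmegaLike.ctbl_Iic (hW : OmegaLike W) (a : W) : (Iic a).Countable := by
  have : Iic a = insert a (Iio a) := by
    ext b; simp [le_iff_eq_or_lt]
  rw [this]
  exact (hW.ctbl a).insert a

/-- The pressing-down lemma, with countably many values below each point. -/
theorem Stat.press (hW : OmegaLike W) {A : Set W} (hA : Stat A) {T : Type*} (Φ : W → Set T)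
    (hΦ : ∀ a, (Φ a).Countable) (φ : W → T) (hφ : ∀ δ ∈ A, (∃ a, a < δ) → ∃ a < δ, φ δ ∈ Φ a) :
    ∃ τ, Stat {δ ∈ A | φ δ = τ} := by
  by_contra hcon
  push Not at hcon
  have h1 : ∀ τ, ∃ h : W → W, ∀ δ ∈ A, φ δ = τ → (∃ a, a < δ) → ∃ a < δ, δ ≤ h a := by
    intro τ
    have := hcon τ
    unfold Stat at this
    push Not at this
    obtain ⟨h, hh⟩ := this
    exact ⟨h, fun δ hδ hτ ha => by
      obtain ⟨a, ha⟩ := ha
      exact hh δ ⟨hδ, hτ⟩ ⟨a, ha⟩⟩
  choose h hh using h1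
  have h2 : ∀ b, ∃ c, ∀ a ≤ b, ∀ τ ∈ Φ a, ∀ b' ≤ b, h τ b' < c := by
    intro b
    have hC : (⋃ a ∈ Iic b, ⋃ τ ∈ Φ a, (h τ) '' (Iic b)).Countable := by
      refine (hW.ctbl_Iic b).biUnion fun a _ => ?_
      refine (hΦ a).biUnion fun τ _ => ?_
      exact (hW.ctbl_Iic b).image _
    obtain ⟨c, hc⟩ := hW.bdd hC
    refine ⟨c, fun a ha τ hτ b' hb' => hc _ ?_⟩
    exact mem_biUnion ha (mem_biUnion hτ ⟨b', hb', rfl⟩)
  choose H hH using h2
  obtain ⟨δ, hδA, hne, hδ⟩ := hA H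
  obtain ⟨a, haδ, hφa⟩ := hφ δ hδA hne
  obtain ⟨b, hbδ, hb⟩ := hh (φ δ) δ hδA rfl hne
  have := hH (max a b) a (le_max_left _ _) (φ δ) hφa b (le_max_right _ _)
  have h3 := hδ (max a b) (max_lt haδ hbδ)
  exact absurd (lt_of_le_of_lt hb (this.trans h3)) (lt_irrefl _)

theorem Stat.closed {A : Set W} (hA : Stat A) (h₀ : W → W) :
    Stat {δ ∈ A | (∃ a, a < δ) ∧ ∀ a < δ, h₀ a < δ} := by
  intro h
  obtain ⟨δ, hδ, hne, hcl⟩ := hA (fun a => max (h a) (h₀ a))
  exact ⟨δ, ⟨hδ, hne, fun a ha => (le_max_right _ _).trans_lt (hcl a ha)⟩, hne,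
    fun a ha => (le_max_left _ _).trans_lt (hcl a ha)⟩

theorem Stat.mono {A B : Set W} (hA : Stat A) (hAB : A ⊆ B) : Stat B := by
  intro h
  obtain ⟨δ, hδ, hne, hcl⟩ := hA h
  exact ⟨δ, hAB hδ, hne, hcl⟩

/-- A stationary set is unbounded. -/
theorem Stat.exists_gt {A : Set W} (hA : Stat A) (c : W) : ∃ δ ∈ A, c < δ := by
  obtain ⟨δ, hδ, ⟨a, ha⟩, hcl⟩ := hA (fun _ => c)
  exact ⟨δ, hδ, hcl a ha⟩

theorem OmegaLike.stat_univ (hW : OmegaLike W) : Stat (univ : Set W) := by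
  intro h
  have hne : Nonempty W := by
    by_contra hemp
    rw [not_nonempty_iff] at hemp
    exact hW.unctbl (Set.countable_univ_iff.2 inferInstance)
  have h1 : ∀ b, ∃ c, b < c ∧ ∀ b' ≤ b, h b' < c := by
    intro b
    obtain ⟨c, hc⟩ := hW.bdd (((hW.ctbl_Iic b).image h).insert b)
    exact ⟨c, hc _ (mem_insert _ _), fun b' hb' => hc _ (mem_insert_of_mem _ ⟨b', hb', rfl⟩)⟩
  choose g hg1 hg2 using h1
  obtain ⟨w0⟩ := hne
  let s : ℕ → W := fun n => g^[n] w0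
  have hs : ∀ n, s (n+1) = g (s n) := fun n => Function.iterate_succ_apply' g n w0
  have hub : {b : W | ∀ n, s n < b}.Nonempty := by
    obtain ⟨b, hb⟩ := hW.bdd (countable_range s)
    exact ⟨b, fun n => hb _ ⟨n, rfl⟩⟩
  let δ := hW.wf.min _ hub
  have hδ1 : ∀ n, s n < δ := hW.wf.min_mem _ hub
  have hδ2 : ∀ a < δ, ∃ n, a ≤ s n := by
    intro a ha
    by_contra hcon
    push Not at hcon
    exact hW.wf.not_lt_min {b : W | ∀ n, s n < b} (x := a) hcon ha
  refine ⟨δ, mem_univ _, ⟨s 0, hδ1 0⟩, fun a ha => ?_⟩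
  obtain ⟨n, hn⟩ := hδ2 a ha
  have := hg2 (s n) a hn
  rw [← hs] at this
  exact this.trans (hδ1 _)

/-- There are two disjoint stationary sets. -/
theorem OmegaLike.exists_disjoint_stat (hW : OmegaLike W) :
    ∃ S D : Set W, Stat S ∧ Stat D ∧ Disjoint S D ∧ (∀ δ ∈ S, ∃ a, a < δ) := by
  have h1 : ∀ β : W, ∃ f : W → ℕ, InjOn f (Iio β) := by
    intro β
    exact Set.countable_iff_exists_injOn.1 (hW.ctbl β)
  choose e he using h1
  have h2 : ∀ a : W, ∃ n : ℕ, Stat {β | a < β ∧ e β a = n} := by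
    intro a
    have hA : Stat {β : W | a < β} := by
      refine (hW.stat_univ.closed (fun _ => a)).mono ?_
      rintro δ ⟨_, ⟨b, hb⟩, h⟩
      exact h b hb
    obtain ⟨n, hn⟩ := Stat.press hW hA (fun _ => (univ : Set ℕ)) (fun _ => to_countable _)
      (fun β => e β a) (fun δ _ hne => by
        obtain ⟨b, hb⟩ := hne
        exact ⟨b, hb, mem_univ _⟩)
    exact ⟨n, hn.mono (by rintro β ⟨h, h'⟩; exact ⟨h, h'⟩)⟩
  choose n hn using h2
  have h3 : ¬ Function.Injective n := by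
    intro hinj
    exact hW.unctbl (Set.countable_univ_iff.2 hinj.countable)
  simp only [Function.Injective] at h3
  push Not at h3
  obtain ⟨a, a', haa, hne⟩ := h3
  refine ⟨_, _, hn a, hn a', ?_, ?_⟩
  · rw [Set.disjoint_left]
    rintro β ⟨h4, h5⟩ ⟨h6, h7⟩
    exact hne (he β h4 h6 (by rw [h5, h7, haa]))
  · rintro δ ⟨h, _⟩
    exact ⟨a, h⟩

/-- Functions which are eventually regressive on `D`. -/
def EvReg (D : Set W) (l : W → W) : Prop := ∃ γ, ∀ β ∈ D, γ < β → l β < β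

/-- The key combinatorial lemma: the points of a stationary set cannot be separated by finitely
many eventually regressive functions each. -/
theorem key (hW : OmegaLike W) {D : Set W} (hD : Stat D) (F : W → Set (W → W))
    (hfin : ∀ β ∈ D, (F β).Finite) (hreg : ∀ β ∈ D, ∀ l ∈ F β, EvReg D l) (h : W → W) :
    ∃ γ ∈ D, ∃ β ∈ D, γ < β ∧ h γ < β ∧ ∀ l ∈ F γ, l ∈ F β → l γ = l β := by
  classical
  -- threshold function
  have h1 : ∀ a, ∃ c, h a < c ∧ (∀ a' ≤ a, a' ∈ D → ∀ l ∈ F a', ∀ β ∈ D, c ≤ β → l β < β) := by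
    intro a
    let thr : (W → W) → W := fun l => if hl : EvReg D l then hl.choose else a
    have hC : (insert (h a) (⋃ a' ∈ (Iic a ∩ D), thr '' (F a'))).Countable := by
      refine Countable.insert _ ?_
      refine ((hW.ctbl_Iic a).mono inter_subset_left).biUnion fun a' ha' => ?_
      exact ((hfin a' ha'.2).countable).image _
    obtain ⟨c, hc⟩ := hW.bdd hC
    refine ⟨c, hc _ (mem_insert _ _), ?_⟩
    intro a' ha' ha'D l hl β hβ hcβ
    have hl' := hreg a' ha'D l hl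
    have h2 : thr l < c := hc _ (mem_insert_of_mem _ (mem_biUnion ⟨ha', ha'D⟩ ⟨l, hl, rfl⟩))
    have h3 : thr l = hl'.choose := by simp only [thr, dif_pos hl']
    rw [h3] at h2
    exact hl'.choose_spec β hβ (h2.trans_le hcβ)
  choose h₀ hh1 hh2 using h1
  let A : Set W := {δ ∈ D | (∃ a, a < δ) ∧ ∀ a < δ, h₀ a < δ}
  have hA : Stat A := hD.closed h₀
  -- the pressed-down data
  let φ : W → Set ((W → W) × W) := fun β =>
    {z | z.1 ∈ F β ∧ z.2 = z.1 β ∧ ∃ a < β, a ∈ D ∧ z.1 ∈ F a}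
  let Φ : W → Set (Set ((W → W) × W)) := fun a =>
    {G | G.Finite ∧ G ⊆ (⋃ a' ∈ (Iic a ∩ D), F a') ×ˢ (Iic a)}
  have hΦ : ∀ a, (Φ a).Countable := by
    intro a
    refine Set.countable_ofPred_finite_subset ?_
    refine Countable.prod ?_ (hW.ctbl_Iic a)
    exact ((hW.ctbl_Iic a).mono inter_subset_left).biUnion fun a' ha' =>
      (hfin a' ha'.2).countable
  have hφfin : ∀ β ∈ D, (φ β).Finite := by
    intro β hβ
    refine ((hfin β hβ).image (fun l => (l, l β))).subset ?_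
    rintro ⟨l, w⟩ ⟨hl, hw, _⟩
    exact ⟨l, hl, by simp only at hw; rw [hw]⟩
  have hφ : ∀ δ ∈ A, (∃ a, a < δ) → ∃ a < δ, φ δ ∈ Φ a := by
    rintro δ ⟨hδD, hne, hδ⟩ _
    -- each element has a bound below δ
    have h3 : ∀ z ∈ φ δ, ∃ a < δ, z ∈ (⋃ a' ∈ (Iic a ∩ D), F a') ×ˢ (Iic a) := by
      rintro ⟨l, w⟩ ⟨hl, hw, a, haδ, haD, hla⟩
      simp only at hl hw hla
      have h4 : w < δ := by
        rw [hw]
        exact hh2 a a le_rfl haD l hla δ hδD (hδ a haδ).le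
      refine ⟨max a w, max_lt haδ h4, ?_, ?_⟩
      · exact mem_biUnion (x := a) ⟨le_max_left _ _, haD⟩ hla
      · exact le_max_right _ _
    have h4 : ∀ G : Set ((W → W) × W), G.Finite → G ⊆ φ δ →
        ∃ a < δ, G ⊆ (⋃ a' ∈ (Iic a ∩ D), F a') ×ˢ (Iic a) := by
      intro G hG
      induction G, hG using Set.Finite.induction_on with
      | empty =>
        intro _
        obtain ⟨a, ha⟩ := hne
        exact ⟨a, ha, empty_subset _⟩
      | @insert z G hz hG ih =>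
        intro hsub
        obtain ⟨a, ha, haG⟩ := ih ((subset_insert _ _).trans hsub)
        obtain ⟨b, hb, hbz⟩ := h3 z (hsub (mem_insert _ _))
        refine ⟨max a b, max_lt ha hb, ?_⟩
        have hmono : ∀ c c' : W, c ≤ c' → (⋃ a' ∈ (Iic c ∩ D), F a') ×ˢ (Iic c) ⊆
            (⋃ a' ∈ (Iic c' ∩ D), F a') ×ˢ (Iic c') := by
          intro c c' hcc
          refine Set.prod_mono ?_ (Iic_subset_Iic.2 hcc)
          exact biUnion_mono (inter_subset_inter_left _ (Iic_subset_Iic.2 hcc)) fun _ _ => le_rfl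
        rw [insert_subset_iff]
        exact ⟨hmono _ _ (le_max_right _ _) hbz, haG.trans (hmono _ _ (le_max_left _ _))⟩
    obtain ⟨a, ha, hsub⟩ := h4 (φ δ) (hφfin δ hδD) subset_rfl
    exact ⟨a, ha, hφfin δ hδD, hsub⟩
  obtain ⟨τ, hτ⟩ := Stat.press hW hA Φ hΦ φ hφ
  obtain ⟨γ, ⟨⟨hγD, _, _⟩, hγτ⟩, _, _⟩ := hτ id
  obtain ⟨β, ⟨⟨hβD, _, hβcl⟩, hβτ⟩, hγβ⟩ := hτ.exists_gt γ
  refine ⟨γ, hγD, β, hβD, hγβ, (hh1 γ).trans (hβcl γ hγβ), ?_⟩
  intro l hlγ hlβ
  have h5 : (l, l β) ∈ φ β := ⟨hlβ, rfl, γ, hγβ, hγD, hlγ⟩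
  have h6 : (l, l β) ∈ φ γ := by
    rw [hγτ, ← hβτ]; exact h5
  exact h6.2.1.symm

end Pool.Agent.H90.RS
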