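import Mathlib

/-!
# Alexandroff duplicates of spaces of sequences

`M` is a set with an injection `e : M → (ℕ → A)`. `Base e` is `M` with the metrizable topology
induced from the product of discrete spaces. `Dup e` is its Alexandroff duplicate.
-/

namespace Pool.Agent.H90.RS

open Set Filter Topology PiNat

/-- `M` with the topology induced by `e : M → (ℕ → A)`, where `A` is discrete. -/
def Base {M A : Type*} (_e : M → ℕ → A) : Type _ := M

/-- The Alexandroff duplicate of `Base e`. -/
def Dup {M A : Type*} (_e : M → ℕ → A) : Type _ := M × Bool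

variable {M A : Type*} {e : M → ℕ → A}

instance : TopologicalSpace (Base e) :=
  TopologicalSpace.induced e (@Pi.topologicalSpace ℕ (fun _ => A) (fun _ => ⊥))

theorem Base.isOpen_iff {U : Set (Base e)} :
    IsOpen U ↔ ∀ u ∈ U, ∃ n : ℕ, ∀ v : M, res (e v) n = res (e u) n → v ∈ U := by
  let : TopologicalSpace A := ⊥
  have : DiscreteTopology A := ⟨rfl⟩
  constructor
  · rintro ⟨O, hO, rfl⟩ u hu
    obtain ⟨I, w, hw, hsub⟩ := isOpen_pi_iff.1 hO (e u) hu
    refine ⟨I.sup id + 1, fun v hv => ?_⟩
    refine hsub ?_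
    intro i hi
    have h1 : e v i = e u i := by
      refine res_eq_res.1 hv ?_
      exact Nat.lt_succ_of_le (Finset.le_sup (f := id) hi)
    rw [h1]
    exact (hw i hi).2
  · intro h
    choose n hn using h
    refine ⟨⋃ (u : M) (hu : u ∈ U), {f | res f (n u hu) = res (e u) (n u hu)}, ?_, ?_⟩
    · refine isOpen_iUnion fun u => isOpen_iUnion fun hu => ?_
      have : {f : ℕ → A | res f (n u hu) = res (e u) (n u hu)} =
          ⋂ i ∈ Finset.range (n u hu), (fun f : ℕ → A => f i) ⁻¹' {e u i} := by
        ext f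
        simp only [mem_ofPred_eq, mem_iInter, mem_preimage, mem_singleton_iff, Finset.mem_range]
        rw [res_eq_res]
      rw [this]
      exact isOpen_biInter_finset fun i _ => (isOpen_discrete _).preimage (continuous_apply i)
    · ext v
      constructor
      · intro hv
        obtain ⟨u, hu, h⟩ := mem_iUnion₂.1 hv
        exact hn u hu v h
      · intro hv
        exact mem_iUnion₂.2 ⟨v, hv, rfl⟩

theorem Base.metrizable (he : Function.Injective e) :
    TopologicalSpace.MetrizableSpace (Base e) := by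
  let : TopologicalSpace A := ⊥
  have : DiscreteTopology A := ⟨rfl⟩
  have h : IsEmbedding (fun u : Base e => (e u : ℕ → A)) := ⟨⟨rfl⟩, he⟩
  exact h.metrizableSpace

namespace Dup

instance : TopologicalSpace (Dup e) where
  IsOpen U := ∀ u : M, ((u, false) : M × Bool) ∈ U → ∃ n : ℕ, ∀ v : M,
    res (e v) n = res (e u) n → ((v, false) : M × Bool) ∈ U ∧ (v ≠ u → ((v, true) : M × Bool) ∈ U)
  isOpen_univ := by
    intro u _
    exact ⟨0, fun v _ => ⟨trivial, fun _ => trivial⟩⟩
  isOpen_inter := by
    intro U V hU hV u hu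
    obtain ⟨n, hn⟩ := hU u hu.1
    obtain ⟨k, hk⟩ := hV u hu.2
    refine ⟨max n k, fun v hv => ?_⟩
    rw [res_eq_res] at hv
    obtain ⟨h1, h2⟩ := hn v (res_eq_res.2 fun m hm => hv (hm.trans_le (le_max_left _ _)))
    obtain ⟨h3, h4⟩ := hk v (res_eq_res.2 fun m hm => hv (hm.trans_le (le_max_right _ _)))
    exact ⟨⟨h1, h3⟩, fun h => ⟨h2 h, h4 h⟩⟩
  isOpen_sUnion := by
    intro 𝒰 h𝒰 u hu
    obtain ⟨U, hU, huU⟩ := hu
    obtain ⟨n, hn⟩ := h𝒰 U hU u huU
    exact ⟨n, fun v hv => ⟨⟨U, hU, (hn v hv).1⟩, fun h => ⟨U, hU, (hn v hv).2 h⟩⟩⟩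

/-- The point of the duplicate. -/
def mk (e : M → ℕ → A) (u : M) (b : Bool) : Dup e := (u, b)

/-- The projection onto the base. -/
def pr (x : Dup e) : Base e := x.1

/-- The first `n` coordinates. -/
def pre (n : ℕ) (x : Dup e) : List A := res (e x.1) n

@[simp] theorem pr_mk (u : M) (b : Bool) : pr (mk e u b) = u := rfl

@[simp] theorem pre_mk (n : ℕ) (u : M) (b : Bool) : pre n (mk e u b) = res (e u) n := rfl

@[simp] theorem mk_inj {u v : M} {b c : Bool} : mk e u b = mk e v c ↔ u = v ∧ b = c := by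
  unfold mk
  exact Prod.mk_inj

theorem cases (x : Dup e) : ∃ u, x = mk e u false ∨ x = mk e u true := by
  rcases x with ⟨u, b⟩
  refine ⟨u, ?_⟩
  cases b
  · exact Or.inl rfl
  · exact Or.inr rfl

theorem isOpen_iff {U : Set (Dup e)} : IsOpen U ↔ ∀ u : M, mk e u false ∈ U → ∃ n : ℕ, ∀ v : M,
    res (e v) n = res (e u) n → mk e v false ∈ U ∧ (v ≠ u → mk e v true ∈ U) := Iff.rfl

theorem res_mono {x y : ℕ → A} {n k : ℕ} (hnk : n ≤ k) (h : res x k = res y k) :
    res x n = res y n := by
  rw [res_eq_res] at h ⊢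
  exact fun m hm => h (hm.trans_le hnk)

theorem exists_res_ne (he : Function.Injective e) {u v : M} (h : u ≠ v) :
    ∃ n, res (e u) n ≠ res (e v) n := by
  by_contra hcon
  push Not at hcon
  exact h (he (res_injective (funext hcon)))

theorem isOpen_trues (U : Set (Dup e)) (h : ∀ u, mk e u false ∉ U) : IsOpen U := by
  rw [isOpen_iff]
  intro u hu
  exact absurd hu (h u)

theorem isClopen_true (he : Function.Injective e) (u : M) :
    IsClopen ({mk e u true} : Set (Dup e)) := by
  refine ⟨?_, isOpen_trues _ (by intro v; simp)⟩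
  rw [← isOpen_compl_iff, isOpen_iff]
  intro v _
  by_cases huv : u = v
  · refine ⟨0, fun w _ => ⟨by simp, fun hw => ?_⟩⟩
    simp only [mem_compl_iff, mem_singleton_iff, mk_inj, and_true]
    rw [huv]; exact hw
  · obtain ⟨n, hn⟩ := exists_res_ne he huv
    refine ⟨n, fun w hw => ⟨by simp, fun _ => ?_⟩⟩
    simp only [mem_compl_iff, mem_singleton_iff, mk_inj, and_true]
    rintro rfl
    exact hn hw

theorem pre_locallyConstant (n : ℕ) : IsLocallyConstant (pre n : Dup e → List A) := by
  intro s
  rw [isOpen_iff]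
  intro u hu
  refine ⟨n, fun v hv => ?_⟩
  simp only [mem_preimage, pre_mk] at hu ⊢
  rw [hv]
  exact ⟨hu, fun _ => hu⟩

theorem continuous_pr : Continuous (pr : Dup e → Base e) := by
  refine ⟨fun U hU => ?_⟩
  rw [Base.isOpen_iff] at hU
  rw [isOpen_iff]
  intro u hu
  obtain ⟨n, hn⟩ := hU u hu
  exact ⟨n, fun v hv => ⟨hn v hv, fun _ => hn v hv⟩⟩

theorem surjective_pr : Function.Surjective (pr : Dup e → Base e) := fun u => ⟨mk e u false, rfl⟩

theorem isCompact_fiber (u : Base e) : IsCompact ((pr : Dup e → Base e) ⁻¹' {u}) := by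
  refine Set.Finite.isCompact ?_
  refine (Set.toFinite {mk e u false, mk e u true}).subset ?_
  intro x hx
  obtain ⟨v, rfl | rfl⟩ := cases x
  · have : v = u := hx
    subst this; simp
  · have : v = u := hx
    subst this; simp

theorem isClosedMap_pr : IsClosedMap (pr : Dup e → Base e) := by
  intro C hC
  rw [← isOpen_compl_iff] at hC ⊢
  rw [Base.isOpen_iff]
  intro u hu
  have h1 : mk e u false ∈ Cᶜ := fun h => hu ⟨_, h, rfl⟩
  have h2 : mk e u true ∈ Cᶜ := fun h => hu ⟨_, h, rfl⟩
  obtain ⟨n, hn⟩ := isOpen_iff.1 hC u h1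
  refine ⟨n, fun v hv => ?_⟩
  rintro ⟨x, hx, hxv⟩
  obtain ⟨w, rfl | rfl⟩ := cases x
  · have : w = v := hxv
    subst this
    exact (hn w hv).1 hx
  · have : w = v := hxv
    subst this
    by_cases hwu : w = u
    · subst hwu
      exact h2 hx
    · exact (hn w hv).2 hwu hx

theorem t2Space (he : Function.Injective e) : T2Space (Dup e) := by
  have htf : ∀ u : M, IsClopen ({mk e u true} : Set (Dup e)) := isClopen_true he
  refine ⟨fun x y hxy => ?_⟩
  obtain ⟨u, hx⟩ := cases x
  obtain ⟨v, hy⟩ := cases y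
  by_cases huv : u = v
  · subst huv
    rcases hx with rfl | rfl <;> rcases hy with rfl | rfl
    · exact absurd rfl hxy
    · exact ⟨{mk e u true}ᶜ, {mk e u true}, (htf u).compl.isOpen, (htf u).isOpen, by simp, by simp,
        disjoint_compl_left⟩
    · exact ⟨{mk e u true}, {mk e u true}ᶜ, (htf u).isOpen, (htf u).compl.isOpen, by simp, by simp,
        disjoint_compl_right⟩
    · exact absurd rfl hxy
  · obtain ⟨n, hn⟩ := exists_res_ne he huv
    refine ⟨pre n ⁻¹' {res (e u) n}, pre n ⁻¹' {res (e v) n}, pre_locallyConstant n _,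
      pre_locallyConstant n _, ?_, ?_, ?_⟩
    · rcases hx with rfl | rfl <;> simp
    · rcases hy with rfl | rfl <;> simp
    · rw [Set.disjoint_left]
      intro x hx hy
      exact hn (hx.symm.trans hy)

/-- The duplicate is (ultra)paracompact. -/
theorem exists_locallyConstant (he : Function.Injective e) {α : Type*} (U : α → Set (Dup e))
    (hU : ∀ a, IsOpen (U a)) (hcov : ∀ x, ∃ a, x ∈ U a) :
    ∃ r : Dup e → α, IsLocallyConstant r ∧ ∀ x, x ∈ U (r x) := by
  classical
  -- good prefixes
  let Good : List A → Prop := fun s => ∃ v : M, ∃ a : α, res (e v) s.length = s ∧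
    ∀ w : M, res (e w) s.length = s → mk e w false ∈ U a ∧ (w ≠ v → mk e w true ∈ U a)
  have hgood : ∀ u : M, ∃ n, Good (res (e u) n) := by
    intro u
    obtain ⟨a, ha⟩ := hcov (mk e u false)
    obtain ⟨n, hn⟩ := isOpen_iff.1 (hU a) u ha
    refine ⟨n, u, a, by simp, ?_⟩
    intro w hw
    rw [res_length] at hw
    exact hn w hw
  let nn : M → ℕ := fun u => Nat.find (hgood u)
  have hnn : ∀ u, Good (res (e u) (nn u)) := fun u => Nat.find_spec (hgood u)
  have hnn_eq : ∀ u v : M, res (e v) (nn u) = res (e u) (nn u) → nn v = nn u := by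
    intro u v h
    have h1 : nn v ≤ nn u := by
      refine Nat.find_min' (hgood v) ?_
      rw [h]; exact hnn u
    refine le_antisymm h1 ?_
    refine Nat.find_min' (hgood u) ?_
    rw [← res_mono h1 h]
    exact hnn v
  -- choose for each good prefix
  have hsel : ∀ s : {s : List A // Good s}, ∃ v : M, ∃ a : α, ∀ w : M,
      res (e w) s.1.length = s.1 → mk e w false ∈ U a ∧ (w ≠ v → mk e w true ∈ U a) := by
    rintro ⟨s, v, a, _, h⟩
    exact ⟨v, a, h⟩
  choose V α' hV using hsel
  let σ : M → {s : List A // Good s} := fun u => ⟨res (e u) (nn u), hnn u⟩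
  have hσ : ∀ u : M, res (e u) (σ u).1.length = (σ u).1 := by
    intro u
    change res (e u) (res (e u) (nn u)).length = res (e u) (nn u)
    rw [res_length]
  choose r0 hr0 using hcov
  let r : Dup e → α := fun x =>
    if x = mk e (V (σ x.1)) true then r0 x else α' (σ x.1)
  refine ⟨r, ?_, ?_⟩
  · intro s
    rw [isOpen_iff]
    intro u hu
    have h0 : mk e u false ≠ mk e (V (σ u)) true := by simp
    have h1 : r (mk e u false) = α' (σ u) := if_neg h0
    rw [mem_preimage, h1] at hu
    -- a neighbourhood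
    have h2 : ∃ k, nn u ≤ k ∧ ∀ v : M, res (e v) k = res (e u) k → v ≠ u → v ≠ V (σ u) := by
      by_cases h3 : u = V (σ u)
      · exact ⟨nn u, le_rfl, fun v _ h4 => by rwa [← h3]⟩
      · obtain ⟨k, hk⟩ := exists_res_ne he h3
        refine ⟨max (nn u) k, le_max_left _ _, fun v hv _ h4 => ?_⟩
        rw [← h4] at hk
        exact hk (res_mono (le_max_right _ _) hv).symm
    obtain ⟨k, hk1, hk2⟩ := h2
    refine ⟨k, fun v hv => ?_⟩
    have h5 : σ v = σ u := by
      have h6 := res_mono hk1 hv
      have h7 := hnn_eq u v h6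
      apply Subtype.ext
      change res (e v) (nn v) = res (e u) (nn u)
      rw [h7, h6]
    have h8 : r (mk e v false) = α' (σ v) := if_neg (by simp)
    refine ⟨?_, fun hvu => ?_⟩
    · rw [mem_preimage, h8, h5]; exact hu
    · have h9 : r (mk e v true) = α' (σ v) := by
        refine if_neg ?_
        change ¬ (mk e v true = mk e (V (σ v)) true)
        rw [h5, mk_inj]
        exact fun h => hk2 v hv hvu h.1
      rw [mem_preimage, h9, h5]; exact hu
  · intro x
    by_cases hx : x = mk e (V (σ x.1)) true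
    · have : r x = r0 x := if_pos hx
      rw [this]; exact hr0 x
    · have : r x = α' (σ x.1) := if_neg hx
      rw [this]
      obtain ⟨u, rfl | rfl⟩ := cases x
      · change mk e u false ∈ U (α' (σ u))
        exact (hV (σ u) u (hσ u)).1
      · change mk e u true ∈ U (α' (σ u))
        refine (hV (σ u) u (hσ u)).2 ?_
        intro h
        apply hx
        change mk e u true = mk e (V (σ u)) true
        rw [← h]

theorem paracompactSpace (he : Function.Injective e) : ParacompactSpace (Dup e) := by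
  refine ⟨fun α s hs hcov => ?_⟩
  obtain ⟨r, hr, hr'⟩ := exists_locallyConstant he s hs (fun x => by
    have : x ∈ ⋃ a, s a := by rw [hcov]; trivial
    simpa using this)
  refine ⟨α, fun a => r ⁻¹' {a}, fun a => hr _, ?_, ?_, ?_⟩
  · ext x; simp
  · intro x
    refine ⟨r ⁻¹' {r x}, (hr _).mem_nhds rfl, ?_⟩
    refine (Set.finite_singleton (r x)).subset ?_
    rintro a ⟨y, hy1, hy2⟩
    have h1 : r y = a := hy1
    have h2 : r y = r x := hy2
    rw [mem_singleton_iff, ← h1, h2]
  · intro a
    refine ⟨a, ?_⟩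
    intro x hx
    have : r x = a := hx
    rw [← this]
    exact hr' x

end Dup

end Pool.Agent.H90.RS
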