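import Mathlib

/-!
# Spaces with a closed discrete set of non-isolated points given by filters
-/

namespace Pool.Agent.H90.RS

open Set Filter Topology

/-- The space `P ⊔ Q` in which the points of `Q` are isolated and the neighbourhoods of `p ∈ P` are
the sets containing `p` whose trace on `Q` is in the filter `N p`. -/
def FS {P Q : Type*} (_N : P → Filter Q) : Type _ := P ⊕ Q

namespace FS

variable {P Q : Type*} {N : P → Filter Q}

/-- The non-isolated points. -/
def pt (N : P → Filter Q) (p : P) : FS N := Sum.inl p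

/-- The isolated points. -/
def iso (N : P → Filter Q) (q : Q) : FS N := Sum.inr q

theorem cases (y : FS N) : (∃ p, y = pt N p) ∨ (∃ q, y = iso N q) := by
  rcases y with p | q
  · exact Or.inl ⟨p, rfl⟩
  · exact Or.inr ⟨q, rfl⟩

@[simp] theorem pt_ne_iso (p : P) (q : Q) : pt N p ≠ iso N q := Sum.inl_ne_inr

@[simp] theorem iso_ne_pt (p : P) (q : Q) : iso N q ≠ pt N p := Sum.inr_ne_inl

@[simp] theorem pt_inj {p p' : P} : pt N p = pt N p' ↔ p = p' := Sum.inl_injective.eq_iff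

@[simp] theorem iso_inj {q q' : Q} : iso N q = iso N q' ↔ q = q' := Sum.inr_injective.eq_iff

instance : TopologicalSpace (FS N) where
  IsOpen U := ∀ p, pt N p ∈ U → {q | iso N q ∈ U} ∈ N p
  isOpen_univ := by
    intro p _
    exact univ_mem
  isOpen_inter := by
    intro U V hU hV p hp
    exact inter_mem (hU p hp.1) (hV p hp.2)
  isOpen_sUnion := by
    intro 𝒰 h𝒰 p hp
    obtain ⟨U, hU, hpU⟩ := hp
    exact mem_of_superset (h𝒰 U hU p hpU) fun q hq => ⟨U, hU, hq⟩

theorem isOpen_iff {U : Set (FS N)} :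
    IsOpen U ↔ ∀ p, pt N p ∈ U → {q | iso N q ∈ U} ∈ N p := Iff.rfl

theorem isClosed_iff {C : Set (FS N)} :
    IsClosed C ↔ ∀ p, pt N p ∉ C → {q | iso N q ∉ C} ∈ N p := by
  rw [← isOpen_compl_iff, isOpen_iff]
  rfl

theorem isOpen_isos (U : Set (FS N)) (h : ∀ p, pt N p ∉ U) : IsOpen U := by
  rw [isOpen_iff]
  intro p hp
  exact absurd hp (h p)

theorem isOpen_iso (q : Q) : IsOpen ({iso N q} : Set (FS N)) :=
  isOpen_isos _ (by intro p; simp)

theorem isClosed_pts (C : Set (FS N)) (h : ∀ q, iso N q ∉ C) : IsClosed C := by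
  rw [isClosed_iff]
  intro p _
  simp [h]

/-- Condition giving the `T₁` property. -/
theorem t1Space (h : ∀ p q, {q}ᶜ ∈ N p) : T1Space (FS N) := by
  refine ⟨fun y => ?_⟩
  rcases cases y with ⟨p, rfl⟩ | ⟨q, rfl⟩
  · exact isClosed_pts _ (by intro q; simp)
  · rw [isClosed_iff]
    intro p _
    refine mem_of_superset (h p q) ?_
    intro q' hq'
    simpa using hq'

/-- Clopen subsets with a given trace. -/
theorem exists_clopen (h : ∀ P₁ : Set P, ∃ Q₁ : Set Q, (∀ p ∈ P₁, Q₁ ∈ N p) ∧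
    (∀ p ∉ P₁, Q₁ᶜ ∈ N p)) (O : Set (FS N)) (hO : IsOpen O) :
    ∃ C : Set (FS N), IsClopen C ∧ C ⊆ O ∧ ∀ p, pt N p ∈ O → pt N p ∈ C := by
  obtain ⟨Q₁, h1, h2⟩ := h {p | pt N p ∈ O}
  refine ⟨O ∩ {y | ∀ q, y = iso N q → q ∈ Q₁}, ⟨?_, ?_⟩, inter_subset_left, ?_⟩
  · rw [isClosed_iff]
    intro p hp
    have hp' : pt N p ∉ O := by
      intro h3
      exact hp ⟨h3, fun q hq => absurd hq (pt_ne_iso _ _)⟩
    refine mem_of_superset (h2 p hp') ?_
    rintro q hq ⟨_, h4⟩
    exact hq (h4 q rfl)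
  · rw [isOpen_iff]
    intro p hp
    refine mem_of_superset (inter_mem (isOpen_iff.1 hO p hp.1) (h1 p hp.1)) ?_
    rintro q ⟨hq1, hq2⟩
    refine ⟨hq1, ?_⟩
    intro q' hq'
    rw [iso_inj] at hq'
    rwa [← hq']
  · intro p hp
    exact ⟨hp, fun q hq => absurd hq (pt_ne_iso _ _)⟩

theorem normalSpace (h : ∀ P₁ : Set P, ∃ Q₁ : Set Q, (∀ p ∈ P₁, Q₁ ∈ N p) ∧
    (∀ p ∉ P₁, Q₁ᶜ ∈ N p)) : NormalSpace (FS N) := by
  refine ⟨fun A B hA hB hAB => ?_⟩
  -- a clopen set inside the complement of `B` with the right trace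
  obtain ⟨C, hC, hCB, hC'⟩ := exists_clopen h Bᶜ hB.isOpen_compl
  -- `A` is covered by `C` and the isolated points of `A`
  refine ⟨(C ∪ (A ∩ range (iso N))), Cᶜ \ (A ∩ range (iso N)), ?_, ?_, ?_, ?_, ?_⟩
  · refine hC.2.union (isOpen_isos _ ?_)
    rintro p ⟨_, q, hq⟩
    exact pt_ne_iso _ _ hq.symm
  · rw [isOpen_iff]
    rintro p ⟨hp1, _⟩
    have hpB : pt N p ∈ B := by
      by_contra hpB
      exact hp1 (hC' p hpB)
    have hpA : pt N p ∉ A := fun hpA => Set.disjoint_left.1 hAB hpA hpB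
    have h1 := isOpen_iff.1 hC.1.isOpen_compl p hp1
    have h2 := isClosed_iff.1 hA p hpA
    refine mem_of_superset (inter_mem h1 h2) ?_
    rintro q ⟨hq1, hq2⟩
    exact ⟨hq1, fun h3 => hq2 h3.1⟩
  · intro y hy
    rcases cases y with ⟨p, rfl⟩ | ⟨q, rfl⟩
    · exact Or.inl (hC' p fun h3 => Set.disjoint_left.1 hAB hy h3)
    · exact Or.inr ⟨hy, q, rfl⟩
  · intro y hy
    refine ⟨fun h3 => hCB h3 hy, fun h3 => Set.disjoint_left.1 hAB h3.1 hy⟩
  · rw [Set.disjoint_left]
    rintro y (hy | hy) ⟨h1, h2⟩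
    · exact h1 hy
    · exact h2 hy

/-- In the presence of a level function all subsets are `Gδ` sets. -/
theorem isGδ (level : Q → ℕ) (hlev : ∀ p n, {q | n ≤ level q} ∈ N p) (C : Set (FS N)) :
    IsGδ C := by
  have h : C = ⋂ n : ℕ, (C ∪ {y | ∃ q, y = iso N q ∧ n ≤ level q}) := by
    ext y
    rw [mem_iInter]
    constructor
    · intro hy n
      exact Or.inl hy
    · intro hy
      rcases cases y with ⟨p, rfl⟩ | ⟨q, rfl⟩
      · rcases hy 0 with h | ⟨q, h, _⟩
        · exact h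
        · exact absurd h (pt_ne_iso _ _)
      · rcases hy (level q + 1) with h | ⟨q', h, h'⟩
        · exact h
        · rw [iso_inj] at h
          subst h
          omega
  rw [h]
  refine IsGδ.iInter_of_isOpen fun n => ?_
  rw [isOpen_iff]
  intro p _
  refine mem_of_superset (hlev p n) ?_
  intro q hq
  exact Or.inr ⟨q, rfl, hq⟩

/-- The quotient map identifying the points of each fibre of `φ`. -/
def map {P' : Type*} (N : P → Filter Q) (N' : P' → Filter Q) (φ : P → P') : FS N → FS N'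
  | Sum.inl p => pt N' (φ p)
  | Sum.inr q => iso N' q

@[simp] theorem map_pt {P' : Type*} (N' : P' → Filter Q) (φ : P → P') (p : P) :
    map N N' φ (pt N p) = pt N' (φ p) := rfl

@[simp] theorem map_iso {P' : Type*} (N' : P' → Filter Q) (φ : P → P') (q : Q) :
    map N N' φ (iso N q) = iso N' q := rfl

theorem map_surjective {P' : Type*} (N' : P' → Filter Q) (φ : P → P')
    (hφ : Function.Surjective φ) : Function.Surjective (map N N' φ) := by
  intro y
  rcases cases y with ⟨p, rfl⟩ | ⟨q, rfl⟩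
  · obtain ⟨p', rfl⟩ := hφ p
    exact ⟨pt N p', rfl⟩
  · exact ⟨iso N q, rfl⟩

theorem map_continuous {P' : Type*} (N' : P' → Filter Q) (φ : P → P')
    (h : ∀ p, N p ≤ N' (φ p)) : Continuous (map N N' φ) := by
  refine ⟨fun U hU => ?_⟩
  rw [isOpen_iff] at hU ⊢
  intro p hp
  exact h p (hU (φ p) hp)

theorem map_isClosedMap {P' : Type*} (N' : P' → Filter Q) (φ : P → P')
    (h : ∀ p' : P', ∀ V : Set Q, (∀ p, φ p = p' → V ∈ N p) → V ∈ N' p') :
    IsClosedMap (map N N' φ) := by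
  intro C hC
  rw [isClosed_iff] at hC ⊢
  intro p' hp'
  refine mem_of_superset (h p' {q | iso N q ∉ C} ?_) ?_
  · intro p hp
    refine hC p ?_
    intro hpC
    exact hp' ⟨pt N p, hpC, by rw [map_pt, hp]⟩
  · rintro q hq ⟨y, hy, hyq⟩
    rcases cases y with ⟨p, rfl⟩ | ⟨q', rfl⟩
    · exact pt_ne_iso _ _ hyq
    · rw [map_iso, iso_inj] at hyq
      rw [hyq] at hy
      exact hq hy

/-- A function on `FS N` is locally constant as soon as it is so at the non-isolated points. -/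
theorem isLocallyConstant {T : Type*} (f : FS N → T)
    (h : ∀ p, {q | f (iso N q) = f (pt N p)} ∈ N p) : IsLocallyConstant f := by
  intro s
  rw [isOpen_iff]
  intro p hp
  refine mem_of_superset (h p) ?_
  intro q hq
  simp only [mem_ofPred_eq, mem_preimage] at hq ⊢
  rw [hq]
  exact hp

end FS

end Pool.Agent.H90.RS
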