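import Pool.Agent.H90.RS.FS
import Pool.Agent.H90.RS.Dup

/-!
# Normality of products of a duplicate and a space with closed discrete set of limit points
-/

namespace Pool.Agent.H90.RS

open Set Filter Topology PiNat

theorem lc_open {Z T : Type*} [TopologicalSpace Z] {f : Z → T} (hf : IsLocallyConstant f)
    {C : T → Set Z} (hC : ∀ τ, IsOpen (C τ)) : IsOpen {z | z ∈ C (f z)} := by
  have : {z | z ∈ C (f z)} = ⋃ τ, (f ⁻¹' {τ} ∩ C τ) := by
    ext z; simp
  rw [this]
  exact isOpen_iUnion fun τ => (hf _).inter (hC τ)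

theorem lc_closed {Z T : Type*} [TopologicalSpace Z] {f : Z → T} (hf : IsLocallyConstant f)
    {C : T → Set Z} (hC : ∀ τ, IsClosed (C τ)) : IsClosed {z | z ∈ C (f z)} := by
  rw [← isOpen_compl_iff]
  exact lc_open hf (C := fun τ => (C τ)ᶜ) fun τ => (hC τ).isOpen_compl

theorem lc_lc {Z T T' : Type*} [TopologicalSpace Z] {f : Z → T} (hf : IsLocallyConstant f)
    {g : T → Z → T'} (hg : ∀ τ, IsLocallyConstant (g τ)) :
    IsLocallyConstant fun z => g (f z) z := by
  intro s
  exact lc_open hf (C := fun τ => g τ ⁻¹' s) fun τ => hg τ s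

theorem hasSeparatingCover_of_countable {Z ι : Type*} [TopologicalSpace Z] [Countable ι]
    [Nonempty ι] {A B : Set Z} (w : ι → Set Z) (hA : ∀ z ∈ A, ∃ i, z ∈ w i)
    (hw : ∀ i, IsOpen (w i) ∧ Disjoint (closure (w i)) B) : HasSeparatingCover A B := by
  obtain ⟨f, hf⟩ := exists_surjective_nat ι
  refine ⟨fun n => w (f n), ?_, fun n => hw _⟩
  intro z hz
  obtain ⟨i, hi⟩ := hA z hz
  obtain ⟨n, rfl⟩ := hf i
  exact mem_iUnion.2 ⟨n, hi⟩

section

variable {M T0 P Q : Type*} {e : M → ℕ → T0} {N : P → Filter Q}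

/-- Main normality theorem. -/
theorem normal_prod (he : Function.Injective e)
    (level : Q → ℕ) (hlev : ∀ p n, {q | n ≤ level q} ∈ N p)
    (h2 : ∀ P₁ : Set P, ∃ Q₁ : Set Q, (∀ p ∈ P₁, Q₁ ∈ N p) ∧ (∀ p ∉ P₁, Q₁ᶜ ∈ N p))
    (hR : ∀ c : P → Option M, ∃ (m : P → ℕ) (Λ : List T0 → FS N → Option M),
      (∀ t, IsLocallyConstant (Λ t)) ∧
      ∀ p u, c p = some u → Λ (res (e u) (m p)) (FS.pt N p) = some u) :
    NormalSpace (Dup e × FS N) := by
  classical
  suffices H : ∀ A B : Set (Dup e × FS N), IsClosed A → IsClosed B → Disjoint A B →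
      HasSeparatingCover A B by
    refine ⟨fun A B hA hB hAB => ?_⟩
    exact hasSeparatingCovers_iff_separatedNhds.1 ⟨H A B hA hB hAB, H B A hB hA hAB.symm⟩
  intro A B hA hB hAB
  have := Dup.paracompactSpace he
  have := Dup.t2Space he
  have hXn : NormalSpace (Dup e) := inferInstance
  -- clopen sets of `FS N` which, multiplied by a box, miss `B`
  have hN : ∀ Box : Set (Dup e), ∃ C : Set (FS N), IsClopen C ∧
      (∀ x ∈ Box, ∀ y ∈ C, (x, y) ∉ B) ∧
      (∀ p, (∃ V : Set (FS N), IsOpen V ∧ FS.pt N p ∈ V ∧ ∀ x ∈ Box, ∀ y ∈ V, (x, y) ∉ B) →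
        FS.pt N p ∈ C) := by
    intro Box
    let O : Set (FS N) := ⋃₀ {V | IsOpen V ∧ ∀ x ∈ Box, ∀ y ∈ V, (x, y) ∉ B}
    have hO : IsOpen O := isOpen_sUnion fun V hV => hV.1
    obtain ⟨C, hC1, hC2, hC3⟩ := FS.exists_clopen h2 O hO
    refine ⟨C, hC1, ?_, ?_⟩
    · intro x hx y hy
      obtain ⟨V, hV, hyV⟩ := hC2 hy
      exact hV.2 x hx y hyV
    · rintro p ⟨V, hV1, hV2, hV3⟩
      exact hC3 p ⟨V, ⟨hV1, hV3⟩, hV2⟩
  choose NC hNC1 hNC2 hNC3 using hN
  -- functional relations
  have hfun : ∀ (R : P → M → Prop), (∀ p u v, R p u → R p v → u = v) →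
      ∃ c : P → Option M, ∀ p u, R p u → c p = some u := by
    intro R hRu
    refine ⟨fun p => if h : ∃ u, R p u then some h.choose else none, ?_⟩
    intro p u hu
    have h : ∃ u, R p u := ⟨u, hu⟩
    have h' : (if h : ∃ u, R p u then some h.choose else none : Option M) = some h.choose :=
      dif_pos h
    refine h'.trans ?_
    congr 1
    exact hRu p _ _ h.choose_spec hu
  -- for a closed set `E`, the unique point of `E` over a cylinder
  have huniq : ∀ E : Set (Dup e × FS N), ∀ s : List T0, ∃ (m : P → ℕ)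
      (Λ : List T0 → FS N → Option M), (∀ t, IsLocallyConstant (Λ t)) ∧
      ∀ p u, (Dup.mk e u true, FS.pt N p) ∈ E → res (e u) s.length = s →
        (∀ x, Dup.pre s.length x = s → (x, FS.pt N p) ∈ E → x = Dup.mk e u true) →
        Λ (res (e u) (m p)) (FS.pt N p) = some u := by
    intro E s
    obtain ⟨c, hc⟩ := hfun (fun p u => (Dup.mk e u true, FS.pt N p) ∈ E ∧
        res (e u) s.length = s ∧
        ∀ x, Dup.pre s.length x = s → (x, FS.pt N p) ∈ E → x = Dup.mk e u true) (by
      rintro p u v ⟨h1, h3, h5⟩ ⟨h6, h7, h8⟩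
      have := h8 (Dup.mk e u true) (by simpa using h3) h1
      exact (Dup.mk_inj.1 this).1)
    obtain ⟨m, Λ, hΛ1, hΛ2⟩ := hR c
    exact ⟨m, Λ, hΛ1, fun p u h1 h3 h5 => hΛ2 p u (hc p u ⟨h1, h3, h5⟩)⟩
  choose mm ΛΛ hΛ1 hΛ2 using huniq
  -- the separating sets
  let pre1 : ℕ → Dup e × FS N → List T0 := fun n z => Dup.pre n z.1
  have hpre1 : ∀ n, IsLocallyConstant (pre1 n) := fun n =>
    (Dup.pre_locallyConstant n).comp_continuous continuous_fst
  -- type (i)
  let W1 : ℕ → Set (Dup e × FS N) := fun n =>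
    {z | z ∈ (fun s : List T0 => {z : Dup e × FS N | Dup.pre n z.1 = s ∧
      z.2 ∈ NC {x | Dup.pre n x = s}}) (pre1 n z)}
  -- label
  let lab : Set (Dup e × FS N) → ℕ → ℕ → Dup e × FS N → List T0 × Option M := fun E n k z =>
    (pre1 n z, ΛΛ E (pre1 n z) (pre1 k z) z.2)
  have hlab : ∀ E n k, IsLocallyConstant (lab E n k) := by
    intro E n k
    refine (hpre1 n).prodMk ?_
    refine lc_lc (f := fun z => (pre1 n z, pre1 k z)) ((hpre1 n).prodMk (hpre1 k))
      (g := fun τ z => ΛΛ E τ.1 τ.2 z.2) ?_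
    intro τ
    exact (hΛ1 E τ.1 τ.2).comp_continuous continuous_snd
  -- type (ii)
  let C2 : List T0 × Option M → Set (Dup e × FS N) := fun τ =>
    match τ.2 with
    | none => ∅
    | some u => {z | z.1 = Dup.mk e u true ∧ z.2 ∈ NC {Dup.mk e u true}}
  let W2 : ℕ → ℕ → Set (Dup e × FS N) := fun n k => {z | z ∈ C2 (lab A n k z)}
  -- type (iii)
  let C3 : ℕ → List T0 × Option M → Set (Dup e × FS N) := fun n τ =>
    match τ.2 with
    | none => ∅
    | some u => {z | (Dup.pre n z.1 = τ.1 ∧ z.1 ≠ Dup.mk e u true) ∧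
        z.2 ∈ NC {x | Dup.pre n x = τ.1 ∧ x ≠ Dup.mk e u true}}
  let W3 : ℕ → ℕ → Set (Dup e × FS N) := fun n k => {z | z ∈ C3 n (lab B n k z)}
  -- type (iv)
  have hG : ∀ q : Q, ∃ G : Set (Dup e), IsOpen G ∧ (∀ x, (x, FS.iso N q) ∈ A → x ∈ G) ∧
      (∀ x ∈ closure G, (x, FS.iso N q) ∉ B) := by
    intro q
    have hc : Continuous fun x : Dup e => (x, FS.iso N q) := by fun_prop
    obtain ⟨G, hG1, hG2, hG3⟩ := normal_exists_closure_subset (hA.preimage hc)
      (hB.preimage hc).isOpen_compl (by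
        intro x hx hx'
        exact Set.disjoint_left.1 hAB hx hx')
    exact ⟨G, hG1, fun x hx => hG2 hx, fun x hx => hG3 hx⟩
  choose G hG1 hG2 hG3 using hG
  let oo : ℕ → FS N → Option Q := fun k y =>
    if h : ∃ q, y = FS.iso N q ∧ level q = k then some h.choose else none
  have hoo1 : ∀ k q, level q = k → oo k (FS.iso N q) = some q := by
    intro k q hq
    have h : ∃ q', FS.iso N q = FS.iso N q' ∧ level q' = k := ⟨q, rfl, hq⟩
    have h1 : oo k (FS.iso N q) = some h.choose := dif_pos h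
    rw [h1]
    congr 1
    exact (FS.iso_inj.1 h.choose_spec.1).symm
  have hoo2 : ∀ k y q, oo k y = some q → y = FS.iso N q := by
    intro k y q h1
    by_cases h : ∃ q, y = FS.iso N q ∧ level q = k
    · have h2 : oo k y = some h.choose := dif_pos h
      rw [h2] at h1
      rw [Option.some_inj] at h1
      rw [← h1]
      exact h.choose_spec.1
    · have h2 : oo k y = none := dif_neg h
      rw [h2] at h1
      exact absurd h1 (by simp)
  have hoo : ∀ k, IsLocallyConstant (oo k) := by
    intro k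
    refine FS.isLocallyConstant _ fun p => ?_
    have h1 : oo k (FS.pt N p) = none := by
      refine dif_neg ?_
      rintro ⟨q, hq, _⟩
      exact FS.pt_ne_iso _ _ hq
    refine mem_of_superset (hlev p (k+1)) ?_
    intro q hq
    have h2 : oo k (FS.iso N q) = none := by
      refine dif_neg ?_
      rintro ⟨q', hq', h3⟩
      rw [FS.iso_inj] at hq'
      subst hq'
      have : k + 1 ≤ level q := hq
      omega
    change oo k (FS.iso N q) = oo k (FS.pt N p)
    rw [h1, h2]
  let C4 : Option Q → Set (Dup e × FS N) := fun o =>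
    match o with
    | none => ∅
    | some q => {z | z.1 ∈ G q}
  let C4' : Option Q → Set (Dup e × FS N) := fun o =>
    match o with
    | none => ∅
    | some q => {z | z.1 ∈ closure (G q)}
  let W4 : ℕ → Set (Dup e × FS N) := fun k => {z | z ∈ C4 (oo k z.2)}
  let W4' : ℕ → Set (Dup e × FS N) := fun k => {z | z ∈ C4' (oo k z.2)}
  have hpren : ∀ (n : ℕ) (s : List T0), IsClopen {x : Dup e | Dup.pre n x = s} := by
    intro n s
    exact (Dup.pre_locallyConstant n).isClopen_fiber s
  -- clopenness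
  have hW1 : ∀ n, IsClopen (W1 n) := by
    intro n
    have : ∀ s : List T0, IsClopen {z : Dup e × FS N | Dup.pre n z.1 = s ∧
      z.2 ∈ NC {x | Dup.pre n x = s}} := by
      intro s
      exact ((hpren n s).preimage continuous_fst).inter ((hNC1 _).preimage continuous_snd)
    exact ⟨lc_closed (hpre1 n) fun s => (this s).1, lc_open (hpre1 n) fun s => (this s).2⟩
  have hW2 : ∀ n k, IsClopen (W2 n k) := by
    intro n k
    have : ∀ τ, IsClopen (C2 τ) := by
      rintro ⟨s, o⟩
      cases o with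
      | none => exact isClopen_empty
      | some u =>
        exact ((Dup.isClopen_true he u).preimage continuous_fst).inter
          ((hNC1 _).preimage continuous_snd)
    exact ⟨lc_closed (hlab A n k) fun s => (this s).1, lc_open (hlab A n k) fun s => (this s).2⟩
  have hW3 : ∀ n k, IsClopen (W3 n k) := by
    intro n k
    have : ∀ τ, IsClopen (C3 n τ) := by
      rintro ⟨s, o⟩
      cases o with
      | none => exact isClopen_empty
      | some u =>
        exact (((hpren n s).preimage continuous_fst).inter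
          ((Dup.isClopen_true he u).compl.preimage continuous_fst)).inter
          ((hNC1 _).preimage continuous_snd)
    exact ⟨lc_closed (hlab B n k) fun s => (this s).1, lc_open (hlab B n k) fun s => (this s).2⟩
  have hW4 : ∀ k, IsOpen (W4 k) := by
    intro k
    refine lc_open ((hoo k).comp_continuous continuous_snd) (C := C4) ?_
    intro o
    cases o with
    | none => exact isOpen_empty
    | some q => exact (hG1 q).preimage continuous_fst
  have hW4' : ∀ k, IsClosed (W4' k) := by
    intro k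
    refine lc_closed ((hoo k).comp_continuous continuous_snd) (C := C4') ?_
    intro o
    cases o with
    | none => exact isClosed_empty
    | some q => exact isClosed_closure.preimage continuous_fst
  -- disjointness from `B`
  have hB1 : ∀ n, Disjoint (W1 n) B := by
    intro n
    rw [Set.disjoint_left]
    rintro ⟨x, y⟩ ⟨h1, h2⟩ h3
    exact hNC2 _ x h1 y h2 h3
  have hB2 : ∀ n k, Disjoint (W2 n k) B := by
    intro n k
    rw [Set.disjoint_left]
    rintro ⟨x, y⟩ h1 h3
    change (x, y) ∈ C2 (lab A n k (x, y)) at h1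
    generalize lab A n k (x, y) = τ at h1
    rcases τ with ⟨s, _ | u⟩
    · exact h1
    · exact hNC2 _ x h1.1 y h1.2 h3
  have hB3 : ∀ n k, Disjoint (W3 n k) B := by
    intro n k
    rw [Set.disjoint_left]
    rintro ⟨x, y⟩ h1 h3
    change (x, y) ∈ C3 n (lab B n k (x, y)) at h1
    generalize lab B n k (x, y) = τ at h1
    rcases τ with ⟨s, _ | u⟩
    · exact h1
    · exact hNC2 _ x h1.1 y h1.2 h3
  have hB4 : ∀ k, Disjoint (W4' k) B := by
    intro k
    rw [Set.disjoint_left]
    rintro ⟨x, y⟩ h1 h3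
    change (x, y) ∈ C4' (oo k y) at h1
    rcases ho : oo k y with _ | q
    · rw [ho] at h1; exact h1
    · rw [ho] at h1
      have := hoo2 k y q ho
      subst this
      exact hG3 q x h1 h3
  have hW44 : ∀ k, W4 k ⊆ W4' k := by
    rintro k ⟨x, y⟩ h1
    change (x, y) ∈ C4 (oo k y) at h1
    change (x, y) ∈ C4' (oo k y)
    rcases ho : oo k y with _ | q
    · rw [ho] at h1; exact h1
    · rw [ho] at h1
      exact subset_closure h1
  -- the cover
  let w : (ℕ ⊕ ℕ × ℕ) ⊕ (ℕ × ℕ ⊕ ℕ) → Set (Dup e × FS N) :=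
    Sum.elim (Sum.elim W1 (fun a => W2 a.1 a.2)) (Sum.elim (fun a => W3 a.1 a.2) W4)
  have hclopen : ∀ C : Set (Dup e × FS N), IsClopen C → Disjoint C B →
      IsOpen C ∧ Disjoint (closure C) B := by
    intro C hC hCB
    exact ⟨hC.2, by rwa [hC.1.closure_eq]⟩
  refine hasSeparatingCover_of_countable w ?_ ?_
  · rintro ⟨x, y⟩ hxy
    rcases FS.cases y with ⟨p, rfl⟩ | ⟨q, rfl⟩
    · -- neighbourhoods of points not in `B`
      have hnb : ∀ x' : Dup e, (x', FS.pt N p) ∉ B → ∃ U : Set (Dup e), ∃ V : Set (FS N),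
          IsOpen U ∧ IsOpen V ∧ x' ∈ U ∧ FS.pt N p ∈ V ∧ ∀ a ∈ U, ∀ b ∈ V, (a, b) ∉ B := by
        intro x' hx'
        obtain ⟨U, V, hU, hV, h1, h3, h4⟩ := isOpen_prod_iff.1 hB.isOpen_compl x' (FS.pt N p) hx'
        exact ⟨U, V, hU, hV, h1, h3, fun a ha b hb => h4 ⟨ha, hb⟩⟩
      have hxB : (x, FS.pt N p) ∉ B := fun h => Set.disjoint_left.1 hAB hxy h
      obtain ⟨u, hu⟩ := Dup.cases x
      by_cases hi : (Dup.mk e u false, FS.pt N p) ∉ B ∧ (Dup.mk e u true, FS.pt N p) ∉ B
      · -- type (i)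
        obtain ⟨U0, V0, hU0, hV0, h1, h3, h4⟩ := hnb _ hi.1
        obtain ⟨U1, V1, hU1, hV1, h5, h6, h7⟩ := hnb _ hi.2
        obtain ⟨n, hn⟩ := Dup.isOpen_iff.1 hU0 u h1
        refine ⟨Sum.inl (Sum.inl n), ?_⟩
        change Dup.pre n x = Dup.pre n x ∧ FS.pt N p ∈ NC {x' | Dup.pre n x' = Dup.pre n x}
        refine ⟨rfl, hNC3 _ p ⟨V0 ∩ V1, hV0.inter hV1, ⟨h3, h6⟩, ?_⟩⟩
        intro x' hx' y hy
        have hpx : Dup.pre n x = res (e u) n := by
          rcases hu with rfl | rfl <;> rfl
        obtain ⟨v, hv⟩ := Dup.cases x'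
        have hpx' : Dup.pre n x' = res (e v) n := by
          rcases hv with rfl | rfl <;> rfl
        have hvu : res (e v) n = res (e u) n := by
          rw [← hpx, ← hpx']; exact hx'
        by_cases hx'1 : x' = Dup.mk e u true
        · rw [hx'1]
          exact h7 _ h5 y hy.2
        · refine h4 x' ?_ y hy.1
          rcases hv with rfl | rfl
          · exact (hn v hvu).1
          · refine (hn v hvu).2 ?_
            rintro rfl
            exact hx'1 rfl
      · rcases hu with rfl | rfl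
        · -- type (iii): `x = (u, false)`, `(u, true) ∈ B`
          have huB : (Dup.mk e u true, FS.pt N p) ∈ B := by
            by_contra h
            exact hi ⟨hxB, h⟩
          obtain ⟨U, V, hU, hV, h1, h3, h4⟩ := hnb _ hxB
          obtain ⟨n, hn⟩ := Dup.isOpen_iff.1 hU u h1
          -- all points of the cylinder other than `(u, true)` are in `U`
          have h5 : ∀ x' : Dup e, Dup.pre n x' = res (e u) n → x' ≠ Dup.mk e u true → x' ∈ U := by
            intro x' hx' hne
            obtain ⟨v, rfl | rfl⟩ := Dup.cases x'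
            · exact (hn v hx').1
            · refine (hn v hx').2 ?_
              rintro rfl
              exact hne rfl
          have h6 := hΛ2 B (res (e u) n) p u huB (by simp) (by
            intro x' hx' hx'B
            by_contra hne
            rw [res_length] at hx'
            exact h4 x' (h5 x' hx' hne) _ h3 hx'B)
          refine ⟨Sum.inr (Sum.inl (n, mm B (res (e u) n) p)), ?_⟩
          change (Dup.mk e u false, FS.pt N p) ∈ C3 n (res (e u) n,
            ΛΛ B (res (e u) n) (res (e u) (mm B (res (e u) n) p)) (FS.pt N p))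
          rw [h6]
          refine ⟨⟨rfl, by simp⟩, ?_⟩
          refine hNC3 _ p ⟨V, hV, h3, ?_⟩
          rintro x' ⟨hx'1, hx'2⟩ y hy
          exact h4 x' (h5 x' hx'1 hx'2) y hy
        · -- type (ii): `x = (u, true)`, `(u, false) ∈ B`
          have huB : (Dup.mk e u false, FS.pt N p) ∈ B := by
            by_contra h
            exact hi ⟨h, hxB⟩
          have huA : (Dup.mk e u false, FS.pt N p) ∈ Aᶜ := fun h => Set.disjoint_left.1 hAB h huB
          obtain ⟨U, V, hU, hV, h1, h3, h4⟩ := isOpen_prod_iff.1 hA.isOpen_compl _ _ huA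
          obtain ⟨n, hn⟩ := Dup.isOpen_iff.1 hU u h1
          have h6 := hΛ2 A (res (e u) n) p u hxy (by simp) (by
            intro x' hx' hx'A
            by_contra hne
            rw [res_length] at hx'
            have h5 : x' ∈ U := by
              obtain ⟨v, rfl | rfl⟩ := Dup.cases x'
              · exact (hn v hx').1
              · refine (hn v hx').2 ?_
                rintro rfl
                exact hne rfl
            exact h4 (Set.mk_mem_prod h5 h3) hx'A)
          obtain ⟨U', V', hU', hV', h1', h3', h4'⟩ := hnb _ hxB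
          refine ⟨Sum.inl (Sum.inr (n, mm A (res (e u) n) p)), ?_⟩
          change (Dup.mk e u true, FS.pt N p) ∈ C2 (res (e u) n,
            ΛΛ A (res (e u) n) (res (e u) (mm A (res (e u) n) p)) (FS.pt N p))
          rw [h6]
          refine ⟨rfl, ?_⟩
          refine hNC3 _ p ⟨V', hV', h3', ?_⟩
          rintro x' hx' y hy
          rw [mem_singleton_iff.1 hx']
          exact h4' _ h1' y hy
    · -- type (iv)
      refine ⟨Sum.inr (Sum.inr (level q)), ?_⟩
      change (x, FS.iso N q) ∈ C4 (oo (level q) (FS.iso N q))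
      rw [hoo1 _ q rfl]
      exact hG2 q x hxy
  · rintro ((n | a) | (a | k))
    · exact hclopen _ (hW1 n) (hB1 n)
    · exact hclopen _ (hW2 a.1 a.2) (hB2 a.1 a.2)
    · exact hclopen _ (hW3 a.1 a.2) (hB3 a.1 a.2)
    · refine ⟨hW4 k, ?_⟩
      exact (hB4 k).mono_left (closure_minimal (hW44 k) (hW4' k))

end

end Pool.Agent.H90.RS
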