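import Pool.Agent.H90.RS.Comb
import Pool.Agent.H90.RS.Norm

/-!
# The spaces

`W` is the set of countable ordinals, `S` and `D` are disjoint stationary sets, and for `δ ∈ S`
the sequence `x δ` enumerates the predecessors of `δ`.
-/

namespace Pool.Agent.H90.RS

open Set Filter Topology PiNat

variable {W : Type*} [LinearOrder W]

/-- The filter on the isolated points associated with `β`. -/
def nb (D : Set W) (β : W) : Filter (((W → W) → W) × ℕ) where
  sets := {V | ∃ F : Set (W → W), F.Finite ∧ (∀ l ∈ F, EvReg D l) ∧ ∃ n : ℕ,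
    ∀ g : (W → W) → W, ∀ k, n ≤ k → (∀ l ∈ F, g l = l β) → (g, k) ∈ V}
  univ_sets := ⟨∅, finite_empty, by simp, 0, by simp⟩
  sets_of_superset := by
    rintro U V ⟨F, hF, hreg, n, h⟩ hUV
    exact ⟨F, hF, hreg, n, fun g k hk hg => hUV (h g k hk hg)⟩
  inter_sets := by
    rintro U V ⟨F, hF, hreg, n, h⟩ ⟨F', hF', hreg', n', h'⟩
    refine ⟨F ∪ F', hF.union hF', ?_, max n n', fun g k hk hg => ⟨?_, ?_⟩⟩
    · rintro l (hl | hl)
      · exact hreg l hl
      · exact hreg' l hl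
    · exact h g k ((le_max_left _ _).trans hk) fun l hl => hg l (Or.inl hl)
    · exact h' g k ((le_max_right _ _).trans hk) fun l hl => hg l (Or.inr hl)

theorem mem_nb {D : Set W} {β : W} {V : Set (((W → W) → W) × ℕ)} :
    V ∈ nb D β ↔ ∃ F : Set (W → W), F.Finite ∧ (∀ l ∈ F, EvReg D l) ∧ ∃ n : ℕ,
    ∀ g : (W → W) → W, ∀ k, n ≤ k → (∀ l ∈ F, g l = l β) → (g, k) ∈ V := Iff.rfl

theorem mem_nb_of_label {D : Set W} {β : W} {l : W → W} (hl : EvReg D l) :
    {z : ((W → W) → W) × ℕ | z.1 l = l β} ∈ nb D β := by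
  rw [mem_nb]
  refine ⟨{l}, finite_singleton l, ?_, 0, ?_⟩
  · intro l' hl'
    rw [mem_singleton_iff.1 hl']; exact hl
  · intro g k _ hg
    exact hg l rfl

theorem mem_nb_level {D : Set W} {β : W} (n : ℕ) :
    {z : ((W → W) → W) × ℕ | n ≤ z.2} ∈ nb D β := by
  rw [mem_nb]
  exact ⟨∅, finite_empty, by simp, n, fun g k hk _ => hk⟩

variable (S D : Set W)

/-- Indices of the non-isolated points of `Y`. -/
abbrev PY : Type _ := (D → S) × D

/-- The isolated points of `Y` and of `Z`. -/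
abbrev QY : Type _ := (D → S) × (((W → W) → W) × ℕ)

/-- The filters defining `Y`. -/
def NY (p : PY S D) : Filter (QY S D) := Filter.map (Prod.mk p.1) (nb D p.2)

/-- The map identifying the non-isolated points of `Y`. -/
def phi (p : PY S D) : S := p.1 p.2

/-- The filters defining `Z`. -/
def NZ (δ : S) : Filter (QY S D) := ⨆ (p : PY S D) (_ : phi S D p = δ), NY S D p

variable {S D}

theorem mem_NY {p : PY S D} {V : Set (QY S D)} :
    V ∈ NY S D p ↔ {z | (p.1, z) ∈ V} ∈ nb D p.2 := Iff.rfl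

theorem mem_NZ {δ : S} {V : Set (QY S D)} :
    V ∈ NZ S D δ ↔ ∀ p, phi S D p = δ → V ∈ NY S D p := by
  unfold NZ
  simp only [Filter.mem_iSup]

theorem NY_le_NZ (p : PY S D) : NY S D p ≤ NZ S D (phi S D p) := by
  intro V hV
  exact mem_NZ.1 hV p rfl

theorem level_NY (p : PY S D) (n : ℕ) : {q : QY S D | n ≤ q.2.2} ∈ NY S D p := by
  rw [mem_NY]
  exact mem_nb_level n

theorem mem_res_of_lt {α : Type*} (x : ℕ → α) {j n : ℕ} (h : j < n) : x j ∈ res x n := by
  induction n with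
  | zero => exact absurd h (Nat.not_lt_zero j)
  | succ n ih =>
    rw [res_succ]
    rcases Nat.lt_succ_iff_lt_or_eq.1 h with h | h
    · exact List.mem_cons_of_mem _ (ih h)
    · rw [h]; exact List.mem_cons_self

theorem mem_res {α : Type*} (x : ℕ → α) {n : ℕ} {a : α} (h : a ∈ res x n) : ∃ j, x j = a := by
  induction n with
  | zero => simp at h
  | succ n ih =>
    rw [res_succ, List.mem_cons] at h
    rcases h with h | h
    · exact ⟨n, h.symm⟩
    · exact ih h

section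

variable (hW : OmegaLike W) (hS : Stat S) (hD : Stat D) (hSD : Disjoint S D)
  (hSne : ∀ δ ∈ S, ∃ a, a < δ) {x : W → ℕ → W} (hx : ∀ δ ∈ S, range (x δ) = Iio δ)

include hW hSne in
/-- Two distinct elements, the first one not in `S`. -/
theorem exists_two : ∃ w0 w1 : W, w0 ≠ w1 ∧ w0 ∉ S := by
  have hne : (univ : Set W).Nonempty := by
    by_contra h
    rw [Set.not_nonempty_iff_eq_empty] at h
    apply hW.unctbl
    rw [h]; exact countable_empty
  let w0 := hW.wf.min univ hne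
  obtain ⟨w1, hw1⟩ := hW.bdd (countable_singleton w0)
  refine ⟨w0, w1, (hw1 w0 rfl).ne, ?_⟩
  intro h
  obtain ⟨a, ha⟩ := hSne _ h
  exact hW.wf.not_lt_min univ (x := a) (mem_univ _) ha

include hW hSne in
theorem partition_NY (P₁ : Set (PY S D)) : ∃ Q₁ : Set (QY S D), (∀ p ∈ P₁, Q₁ ∈ NY S D p) ∧
    (∀ p ∉ P₁, Q₁ᶜ ∈ NY S D p) := by
  classical
  obtain ⟨w0, w1, hne, _⟩ := exists_two (S := S) hW hSne
  let ind : (D → S) → W → W := fun b β =>
    if h : β ∈ D then (if (b, (⟨β, h⟩ : D)) ∈ P₁ then w1 else w0) else w0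
  have hind : ∀ b, EvReg D (ind b) := by
    intro b
    refine ⟨max w0 w1, fun β hβ h => ?_⟩
    have h0 : w0 < β := (le_max_left _ _).trans_lt h
    have h1 : w1 < β := (le_max_right _ _).trans_lt h
    simp only [ind]
    split_ifs
    · exact h1
    · exact h0
  refine ⟨{q | q.2.1 (ind q.1) = w1}, ?_, ?_⟩
  · rintro ⟨b, β⟩ hp
    rw [mem_NY]
    refine mem_of_superset (mem_nb_of_label (hind b)) ?_
    intro z hz
    have h1 : ind b β = w1 := by
      simp only [ind, Subtype.coe_prop, dite_true, Subtype.coe_eta, hp, if_true]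
    exact Eq.trans hz h1
  · rintro ⟨b, β⟩ hp
    rw [mem_NY]
    refine mem_of_superset (mem_nb_of_label (hind b)) ?_
    intro z hz h2
    have h1 : ind b β = w0 := by
      simp only [ind, Subtype.coe_prop, dite_true, Subtype.coe_eta, hp, if_false]
    have h3 : z.1 (ind b) = w0 := Eq.trans hz h1
    have h4 : z.1 (ind b) = w1 := h2
    exact hne (h3.symm.trans h4)

include hW hSne hSD hx in
/-- The separation property of `Y`. -/
theorem sep_NY (c : PY S D → Option S) : ∃ (m : PY S D → ℕ)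
    (Λ : List W → FS (NY S D) → Option S), (∀ t, IsLocallyConstant (Λ t)) ∧
      ∀ p u, c p = some u → Λ (res (x u) (m p)) (FS.pt (NY S D) p) = some u := by
  classical
  obtain ⟨w0, w1, _, hw0⟩ := exists_two (S := S) hW hSne
  have h1 : ∀ p : PY S D, ∃ k : ℕ, ∀ u : S, c p = some u → (p.2 : W) < u →
      ∃ j < k, x u j = p.2 := by
    intro p
    by_cases h : ∃ u : S, c p = some u ∧ (p.2 : W) < u
    · obtain ⟨u, hu, hlt⟩ := h
      have : (p.2 : W) ∈ range (x u) := by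
        rw [hx u u.2]; exact hlt
      obtain ⟨j, hj⟩ := this
      refine ⟨j + 1, fun v hv _ => ⟨j, Nat.lt_succ_self j, ?_⟩⟩
      have : u = v := by
        rw [hu] at hv; exact Option.some_inj.1 hv
      rw [← this]; exact hj
    · exact ⟨0, fun u hu hlt => absurd ⟨u, hu, hlt⟩ h⟩
  choose m hm using h1
  -- the labels
  let lab : (D → S) → List W → W → W := fun b t β =>
    if h : β ∈ D then
      (if h' : ∃ u : S, c (b, (⟨β, h⟩ : D)) = some u ∧ res (x u) (m (b, (⟨β, h⟩ : D))) = t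
        then ((h'.choose : S) : W) else w0)
    else w0
  have hlab1 : ∀ b t (β : D) (u : S), c (b, β) = some u → res (x u) (m (b, β)) = t →
      lab b t β = u := by
    intro b t β u hu ht
    have h' : ∃ u : S, c (b, β) = some u ∧ res (x u) (m (b, β)) = t := ⟨u, hu, ht⟩
    have h3 : lab b t β = ((h'.choose : S) : W) := by
      simp only [lab, Subtype.coe_prop, dite_true, Subtype.coe_eta]
      rw [dif_pos h']
    rw [h3]
    have h4 : some u = some h'.choose := hu.symm.trans h'.choose_spec.1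
    rw [← Option.some_inj.1 h4]
  have hreg : ∀ b t, EvReg D (lab b t) := by
    intro b t
    obtain ⟨γ, hγ⟩ := hW.bdd (C := insert w0 {a | a ∈ t}) ((t.finite_toSet.countable).insert w0)
    refine ⟨γ, fun β hβ hlt => ?_⟩
    have hw0β : w0 < β := (hγ w0 (mem_insert _ _)).trans hlt
    by_cases h' : ∃ u : S, c (b, (⟨β, hβ⟩ : D)) = some u ∧
        res (x u) (m (b, (⟨β, hβ⟩ : D))) = t
    · obtain ⟨u, hu, ht⟩ := h'
      have h3 := hlab1 b t ⟨β, hβ⟩ u hu ht
      change lab b t β = u at h3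
      rw [h3]
      rcases lt_trichotomy (u : W) β with h4 | h4 | h4
      · exact h4
      · exact absurd hβ (by rw [← h4]; exact Set.disjoint_left.1 hSD u.2)
      · obtain ⟨j, hj, hxj⟩ := hm (b, ⟨β, hβ⟩) u hu h4
        have h5 : β ∈ t := by
          rw [← ht]
          have := mem_res_of_lt (x u) hj
          rw [hxj] at this
          exact this
        exact absurd (hγ β (mem_insert_of_mem _ h5)) (not_lt.2 hlt.le)
    · have h3 : lab b t β = w0 := by
        simp only [lab, dif_pos hβ]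
        rw [dif_neg h']
      rw [h3]; exact hw0β
  let dec : W → Option S := fun w => if h : w ∈ S then some ⟨w, h⟩ else none
  have hdec : ∀ u : S, dec u = some u := by
    intro u
    simp [dec]
  let Λ : List W → FS (NY S D) → Option S := fun t y =>
    match y with
    | Sum.inl p => dec (lab p.1 t p.2)
    | Sum.inr q => dec (q.2.1 (lab q.1 t))
  have hΛ1 : ∀ t p, Λ t (FS.pt (NY S D) p) = dec (lab p.1 t p.2) := fun t p => rfl
  have hΛ2 : ∀ t q, Λ t (FS.iso (NY S D) q) = dec (q.2.1 (lab q.1 t)) := fun t p => rfl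
  refine ⟨m, Λ, ?_, ?_⟩
  · intro t
    refine FS.isLocallyConstant _ fun p => ?_
    rw [mem_NY]
    refine mem_of_superset (mem_nb_of_label (hreg p.1 t)) ?_
    intro z hz
    change Λ t (FS.iso (NY S D) (p.1, z)) = Λ t (FS.pt (NY S D) p)
    rw [hΛ1, hΛ2]
    have hz' : z.1 (lab p.1 t) = lab p.1 t p.2 := hz
    rw [hz']
  · rintro ⟨b, β⟩ u hu
    rw [hΛ1]
    change dec (lab b (res (x u) (m (b, β))) β) = some u
    rw [hlab1 b _ β u hu rfl]
    exact hdec u

/-- The sequences defining the metrizable space. -/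
def ee (S : Set W) (x : W → ℕ → W) : S → ℕ → W := fun u => x u

include hx in
theorem ee_injective : Function.Injective (ee S x) := by
  intro u v huv
  have h1 : Iio (u : W) = Iio (v : W) := by
    rw [← hx u u.2, ← hx v v.2]
    change range (ee S x u) = range (ee S x v)
    rw [huv]
  exact Subtype.ext (Iio_injective h1)

include hW hSne hSD hx in
theorem normal_XY : NormalSpace (Dup (ee S x) × FS (NY S D)) := by
  refine normal_prod (ee_injective hx) (fun q => q.2.2) level_NY (partition_NY hW hSne) ?_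
  intro c
  exact sep_NY hW hSD hSne hx c

theorem compl_singleton_mem_NY (p : PY S D) (q : QY S D) : {q}ᶜ ∈ NY S D p := by
  refine mem_of_superset (level_NY p (q.2.2 + 1)) ?_
  intro q' hq' h
  rw [mem_singleton_iff] at h
  rw [h] at hq'
  have : q.2.2 + 1 ≤ q.2.2 := hq'
  omega

theorem t6Space_of {Y : Type*} [TopologicalSpace Y] [T1Space Y] [NormalSpace Y]
    (h : ∀ C : Set Y, IsClosed C → IsGδ C) : T6Space Y :=
  { (inferInstance : T1Space Y), (inferInstance : NormalSpace Y) with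
    closed_gdelta := h }

include hW hSne in
theorem t6_Y : T6Space (FS (NY S D)) := by
  have h1 : T1Space (FS (NY S D)) := FS.t1Space compl_singleton_mem_NY
  have h2 : NormalSpace (FS (NY S D)) := FS.normalSpace (partition_NY hW hSne)
  exact t6Space_of fun C hC => FS.isGδ (fun q => q.2.2) level_NY C

include hW hSne in
theorem t6_Z : T6Space (FS (NZ S D)) := by
  have h1 : T1Space (FS (NZ S D)) := by
    refine FS.t1Space fun δ q => ?_
    rw [mem_NZ]
    exact fun p _ => compl_singleton_mem_NY p q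
  have h2 : NormalSpace (FS (NZ S D)) := by
    refine FS.normalSpace fun P₁ => ?_
    obtain ⟨Q₁, h3, h4⟩ := partition_NY hW hSne (phi S D ⁻¹' P₁)
    refine ⟨Q₁, fun δ hδ => ?_, fun δ hδ => ?_⟩
    · rw [mem_NZ]
      intro p hp
      exact h3 p (by rw [mem_preimage, hp]; exact hδ)
    · rw [mem_NZ]
      intro p hp
      exact h4 p (by rw [mem_preimage, hp]; exact hδ)
  refine t6Space_of fun C _ => FS.isGδ (fun q => q.2.2) (fun δ n => ?_) C
  rw [mem_NZ]
  exact fun p _ => level_NY p n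

/-- The closed map. -/
def ff (S D : Set W) : FS (NY S D) → FS (NZ S D) := FS.map (NY S D) (NZ S D) (phi S D)

theorem continuous_ff : Continuous (ff S D) := FS.map_continuous _ _ NY_le_NZ

theorem isClosedMap_ff : IsClosedMap (ff S D) := by
  refine FS.map_isClosedMap _ _ ?_
  intro δ V hV
  rw [mem_NZ]
  exact hV

include hD in
theorem surjective_ff : Function.Surjective (ff S D) := by
  refine FS.map_surjective _ _ ?_
  intro δ
  obtain ⟨β, hβ, _⟩ := hD id
  exact ⟨(fun _ => δ, ⟨β, hβ⟩), rfl⟩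

theorem isOpen_star (δ : S) :
    IsOpen {y : FS (NZ S D) | y = FS.pt (NZ S D) δ ∨ ∃ q, y = FS.iso (NZ S D) q} := by
  rw [FS.isOpen_iff]
  intro p _
  refine mem_of_superset univ_mem ?_
  intro q _
  exact Or.inr ⟨q, rfl⟩

include hW hS hD hx in
theorem not_normal_XZ : ¬ NormalSpace (Dup (ee S x) × FS (NZ S D)) := by
  classical
  intro hnorm
  have he := ee_injective hx
  set e := ee S x with hedef
  let A : Set (Dup e × FS (NZ S D)) := {z | ∃ δ : S, z = (Dup.mk e δ true, FS.pt (NZ S D) δ)}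
  let B : Set (Dup e × FS (NZ S D)) :=
    {z | ∃ δ : S, ∃ a, a ≠ Dup.mk e δ true ∧ z = (a, FS.pt (NZ S D) δ)}
  have hA : IsClosed A := by
    rw [← isOpen_compl_iff, isOpen_prod_iff]
    intro a b hab
    rcases FS.cases b with ⟨δ, rfl⟩ | ⟨q, rfl⟩
    · have ha : a ≠ Dup.mk e δ true := by
        rintro rfl
        exact hab ⟨δ, rfl⟩
      refine ⟨{Dup.mk e δ true}ᶜ, _, (Dup.isClopen_true he δ).compl.isOpen, isOpen_star δ, ha,
        Or.inl rfl, ?_⟩
      rintro ⟨a', b'⟩ ⟨ha', hb'⟩ ⟨δ', h⟩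
      rw [Prod.mk_inj] at h
      rcases hb' with hb' | ⟨q, hb'⟩
      · have h1 := FS.pt_inj.1 (hb'.symm.trans h.2)
        subst h1
        exact ha' h.1
      · exact FS.iso_ne_pt _ _ (hb'.symm.trans h.2)
    · refine ⟨univ, {FS.iso (NZ S D) q}, isOpen_univ, FS.isOpen_iso q, trivial, rfl, ?_⟩
      rintro ⟨a', b'⟩ ⟨_, hb'⟩ ⟨δ', h⟩
      rw [Prod.mk_inj] at h
      exact FS.iso_ne_pt _ _ ((mem_singleton_iff.1 hb').symm.trans h.2)
  have hB : IsClosed B := by
    rw [← isOpen_compl_iff, isOpen_prod_iff]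
    intro a b hab
    rcases FS.cases b with ⟨δ, rfl⟩ | ⟨q, rfl⟩
    · have ha : a = Dup.mk e δ true := by
        by_contra h
        exact hab ⟨δ, a, h, rfl⟩
      refine ⟨{Dup.mk e δ true}, _, (Dup.isClopen_true he δ).isOpen, isOpen_star δ, ha,
        Or.inl rfl, ?_⟩
      rintro ⟨a', b'⟩ ⟨ha', hb'⟩ ⟨δ', a'', h2, h⟩
      rw [Prod.mk_inj] at h
      rcases hb' with hb' | ⟨q, hb'⟩
      · have h1 := FS.pt_inj.1 (hb'.symm.trans h.2)
        subst h1
        rw [← h.1] at h2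
        exact h2 ha'
      · exact FS.iso_ne_pt _ _ (hb'.symm.trans h.2)
    · refine ⟨univ, {FS.iso (NZ S D) q}, isOpen_univ, FS.isOpen_iso q, trivial, rfl, ?_⟩
      rintro ⟨a', b'⟩ ⟨_, hb'⟩ ⟨δ', a'', h2, h⟩
      rw [Prod.mk_inj] at h
      exact FS.iso_ne_pt _ _ ((mem_singleton_iff.1 hb').symm.trans h.2)
  have hAB : Disjoint A B := by
    rw [Set.disjoint_left]
    rintro z ⟨δ, rfl⟩ ⟨δ', a, ha, h⟩
    rw [Prod.mk_inj] at h
    have h1 := FS.pt_inj.1 h.2
    subst h1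
    exact ha h.1.symm
  obtain ⟨U, V, hU, hV, hAU, hBV, hUV⟩ := hnorm.normal A B hA hB hAB
  -- neighbourhoods
  have h1 : ∀ δ : S, ∃ n : ℕ, ∃ G : Set (FS (NZ S D)), IsOpen G ∧ FS.pt (NZ S D) δ ∈ G ∧
      (∀ y ∈ G, (Dup.mk e δ true, y) ∈ U) ∧
      ∀ v : S, res (e v) n = res (e δ) n → v ≠ δ → ∀ y ∈ G, (Dup.mk e v true, y) ∈ V := by
    intro δ
    have hm1 : (Dup.mk e δ true, FS.pt (NZ S D) δ) ∈ U := hAU ⟨δ, rfl⟩
    have hm2 : (Dup.mk e δ false, FS.pt (NZ S D) δ) ∈ V := hBV ⟨δ, _, by simp, rfl⟩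
    obtain ⟨u1, v1, hu1, hv1, hx1, hy1, hs1⟩ := isOpen_prod_iff.1 hU _ _ hm1
    obtain ⟨u2, v2, hu2, hv2, hx2, hy2, hs2⟩ := isOpen_prod_iff.1 hV _ _ hm2
    obtain ⟨n, hn⟩ := Dup.isOpen_iff.1 hu2 δ hx2
    refine ⟨n, v1 ∩ v2, hv1.inter hv2, ⟨hy1, hy2⟩, ?_, ?_⟩
    · intro y hy
      exact hs1 ⟨hx1, hy.1⟩
    · intro v hv hvδ y hy
      exact hs2 ⟨(hn v hv).2 hvδ, hy.2⟩
  choose n G hG1 hG2 hG3 hG4 using h1
  -- pressing down
  let φ : W → List W := fun δ => if h : δ ∈ S then res (x δ) (n ⟨δ, h⟩) else []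
  have hφ1 : ∀ δ : S, φ δ = res (e δ) (n δ) := by
    intro δ
    simp only [φ, Subtype.coe_prop, dite_true, Subtype.coe_eta]
    rfl
  have hcount : ∀ a : W, {t : List W | ∀ w ∈ t, w ∈ Iic a}.Countable := by
    intro a
    rw [← Set.range_list_map_coe]
    have : Countable (Iic a) := (hW.ctbl_Iic a).to_subtype
    exact countable_range _
  have hbound : ∀ (δ : W), (∃ a, a < δ) → ∀ t : List W, (∀ w ∈ t, w < δ) →
      ∃ a < δ, ∀ w ∈ t, w ∈ Iic a := by
    intro δ hne t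
    induction t with
    | nil =>
      intro _
      obtain ⟨a, ha⟩ := hne
      exact ⟨a, ha, by simp⟩
    | cons b t ih =>
      intro h
      obtain ⟨a, ha, h'⟩ := ih fun w hw => h w (List.mem_cons_of_mem _ hw)
      refine ⟨max a b, max_lt ha (h b List.mem_cons_self), ?_⟩
      intro w hw
      rw [List.mem_cons] at hw
      rcases hw with rfl | hw
      · exact le_max_right _ _
      · exact (h' w hw).trans (le_max_left _ _)
  obtain ⟨τ, hτ⟩ := Stat.press hW hS (fun a => {t : List W | ∀ w ∈ t, w ∈ Iic a}) hcount φ (by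
    intro δ hδ hne
    refine hbound δ hne (φ δ) ?_
    intro w hw
    rw [hφ1 ⟨δ, hδ⟩] at hw
    obtain ⟨j, hj⟩ := mem_res _ hw
    have : w ∈ range (x δ) := ⟨j, hj⟩
    rw [hx δ hδ] at this
    exact this)
  -- disjoint neighbourhoods for the points of the stationary set
  have hdisj : ∀ δ δ' : S, φ δ = τ → φ δ' = τ → δ ≠ δ' → ∀ y, y ∈ G δ → y ∉ G δ' := by
    intro δ δ' h1 h2 hne y hy hy'
    have h3 : res (e δ) (n δ) = res (e δ') (n δ') := by
      rw [← hφ1, ← hφ1, h1, h2]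
    have h4 : n δ = n δ' := by
      have := congrArg List.length h3
      simpa using this
    rw [← h4] at h3
    have h5 := hG4 δ δ' h3.symm hne.symm y hy
    have h6 := hG3 δ' y hy'
    exact Set.disjoint_left.1 hUV h6 h5
  -- the index
  have hb : ∀ β : D, ∃ δ : S, φ δ = τ ∧ (β : W) < δ := by
    intro β
    obtain ⟨δ, ⟨hδ, hδτ⟩, hβδ⟩ := hτ.exists_gt (β : W)
    exact ⟨⟨δ, hδ⟩, hδτ, hβδ⟩
  choose b hb1 hb2 using hb
  have hF : ∀ β : D, ∃ F : Set (W → W), F.Finite ∧ (∀ l ∈ F, EvReg D l) ∧ ∃ k₀ : ℕ,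
      ∀ g : (W → W) → W, ∀ k, k₀ ≤ k → (∀ l ∈ F, g l = l β) →
        FS.iso (NZ S D) (b, (g, k)) ∈ G (b β) := by
    intro β
    have h2 := FS.isOpen_iff.1 (hG1 (b β)) (b β) (hG2 (b β))
    have h3 := mem_NZ.1 h2 (b, β) rfl
    rw [mem_NY] at h3
    exact mem_nb.1 h3
  choose F hFfin hFreg k₀ hFG using hF
  let F' : W → Set (W → W) := fun β => if h : β ∈ D then F ⟨β, h⟩ else ∅
  have hF' : ∀ β : D, F' β = F β := by
    intro β
    simp only [F', Subtype.coe_prop, dite_true, Subtype.coe_eta]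
  let h : W → W := fun γ => if h : γ ∈ D then (b ⟨γ, h⟩ : W) else γ
  have hh : ∀ γ : D, h γ = b γ := by
    intro γ
    simp only [h, Subtype.coe_prop, dite_true, Subtype.coe_eta]
  obtain ⟨γ, hγD, β, hβD, hγβ, hhγ, hagree⟩ := key hW hD F' (by
      intro β hβ
      rw [hF' ⟨β, hβ⟩]; exact hFfin _) (by
      intro β hβ
      rw [hF' ⟨β, hβ⟩]; exact hFreg _) h
  rw [hF' ⟨γ, hγD⟩, hF' ⟨β, hβD⟩] at hagree
  rw [hh ⟨γ, hγD⟩] at hhγ
  let g : (W → W) → W := fun l => if l ∈ F ⟨γ, hγD⟩ then l γ else l β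
  have hg1 : ∀ l ∈ F ⟨γ, hγD⟩, g l = l γ := fun l hl => if_pos hl
  have hg2 : ∀ l ∈ F ⟨β, hβD⟩, g l = l β := by
    intro l hl
    by_cases hl' : l ∈ F ⟨γ, hγD⟩
    · rw [hg1 l hl']; exact hagree l hl' hl
    · exact if_neg hl'
  have hmem1 := hFG ⟨γ, hγD⟩ g (max (k₀ ⟨γ, hγD⟩) (k₀ ⟨β, hβD⟩)) (le_max_left _ _) hg1
  have hmem2 := hFG ⟨β, hβD⟩ g (max (k₀ ⟨γ, hγD⟩) (k₀ ⟨β, hβD⟩)) (le_max_right _ _) hg2
  refine hdisj (b ⟨γ, hγD⟩) (b ⟨β, hβD⟩) (hb1 _) (hb1 _) ?_ _ hmem1 hmem2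
  intro heq
  have h2 := hb2 ⟨β, hβD⟩
  rw [← heq] at h2
  exact absurd (hhγ.trans h2) (lt_irrefl _)

end

end Pool.Agent.H90.RS
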